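import Pool.Agent.X26.GP.Tup
import Pool.Agent.X25.GP.Main

/-!
# Goldbach representations: the tuple `{0, -N}` and windows
-/

set_option autoImplicit false

namespace Pool.Agent.X26.GB

open Finset Filter
open Pool.Agent.Y843.AC.HL (Tup gg nu Adm Tp Sing loc Sing_hasProd loc_good)
open Pool.Agent.H560R3.GB (sing C₂ energy)
open Pool.Agent.W93.PG (cnt WinP)

/-- the set `{0, -N}` -/
def TN (N : ℕ) : Finset ℤ := {0, -(N : ℤ)}

theorem TN_card {N : ℕ} (hN : 1 ≤ N) : (TN N).card = 2 := by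
  unfold TN
  rw [card_pair]
  omega

theorem mem_TN {N : ℕ} {t : ℤ} : t ∈ TN N ↔ t = 0 ∨ t = -(N : ℤ) := by
  unfold TN
  rw [mem_insert, mem_singleton]

theorem nu_one {N q : ℕ} (h : q ∣ N) : nu (TN N) q = 1 := by
  have h1 : (TN N).image (fun t : ℤ => t % q) = {0} := by
    ext v
    rw [mem_image, mem_singleton]
    constructor
    · rintro ⟨t, ht, rfl⟩
      rcases mem_TN.1 ht with rfl | rfl
      · simp
      · apply Int.emod_eq_zero_of_dvd
        rw [Int.dvd_neg]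
        exact_mod_cast h
    · rintro rfl
      exact ⟨0, mem_TN.2 (Or.inl rfl), by simp⟩
  unfold nu
  rw [h1, card_singleton]

theorem nu_two {N q : ℕ} (h : ¬ q ∣ N) : nu (TN N) q = 2 := by
  have h1 : (TN N).image (fun t : ℤ => t % q) = {0, (-(N : ℤ)) % q} := by
    ext v
    rw [mem_image, mem_insert, mem_singleton]
    constructor
    · rintro ⟨t, ht, rfl⟩
      rcases mem_TN.1 ht with rfl | rfl
      · left
        simp
      · right
        rfl
    · rintro (rfl | rfl)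
      · exact ⟨0, mem_TN.2 (Or.inl rfl), by simp⟩
      · exact ⟨-(N : ℤ), mem_TN.2 (Or.inr rfl), rfl⟩
  have h2 : (0 : ℤ) ≠ (-(N : ℤ)) % q := by
    intro h3
    have h4 : (q : ℤ) ∣ -(N : ℤ) := Int.dvd_of_emod_eq_zero h3.symm
    rw [Int.dvd_neg] at h4
    exact h (by exact_mod_cast h4)
  unfold nu
  rw [h1, card_pair h2]

theorem TN_tup {N : ℕ} (hN : 1 ≤ N) (he : 2 ∣ N) : Tup 2 N (TN N) := by
  refine ⟨TN_card hN, ?_, ?_⟩
  · intro q hq
    by_cases h : q ∣ N
    · rw [nu_one h]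
      exact hq.one_lt
    · rw [nu_two h]
      have h1 : q ≠ 2 := by
        rintro rfl
        exact h he
      have := hq.two_le
      omega
  · intro t ht
    rcases mem_TN.1 ht with rfl | rfl
    · simp
    · rw [abs_neg, Nat.abs_cast]

theorem loc_one {N q : ℕ} (hN : 1 ≤ N) (hq : q.Prime) (h : q ∣ N) : loc (TN N) q = (1 - (q : ℝ)⁻¹)⁻¹ := by
  have h1 : (1 : ℝ) < q := by exact_mod_cast hq.one_lt
  have h2 : (0 : ℝ) < 1 - (q : ℝ)⁻¹ := by
    rw [sub_pos]
    exact inv_lt_one_of_one_lt₀ h1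
  unfold loc
  rw [nu_one h, TN_card hN, Nat.cast_one, one_div]
  field_simp

/-- the singular series is at most `N / φ(N)` -/
theorem Sing_le {N : ℕ} (hN : 1 ≤ N) : Sing (TN N) ≤ (N : ℝ) / N.totient := by
  classical
  have h := Sing_hasProd (TN N)
  have h1 : ∀ s : Finset Nat.Primes, ∏ q ∈ s, loc (TN N) q ≤ (N : ℝ) / N.totient := by
    intro s
    have h2 : ∏ q ∈ s, loc (TN N) q ≤ ∏ q ∈ s.filter (fun q : Nat.Primes => (q : ℕ) ∣ N), (1 - ((q : ℕ) : ℝ)⁻¹)⁻¹ := by
      rw [prod_filter]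
      apply Finset.prod_le_prod
      · intro q _
        have hq1 : (1 : ℝ) < (q : ℕ) := by exact_mod_cast q.2.one_lt
        have h2' : (2 : ℝ) ≤ (q : ℕ) := by exact_mod_cast q.2.two_le
        unfold loc
        apply div_nonneg _ (pow_nonneg _ _)
        · rw [sub_nonneg, div_le_one (by linarith)]
          by_cases h3 : (q : ℕ) ∣ N
          · rw [nu_one h3, Nat.cast_one]
            linarith
          · rw [nu_two h3, Nat.cast_two]
            exact h2'
        · rw [sub_nonneg, div_le_one (by linarith)]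
          linarith
      · intro q _
        split_ifs with h3
        · rw [loc_one hN q.2 h3]
        · exact loc_good q.2 (by rw [nu_two h3, TN_card hN])
    refine h2.trans ?_
    have h3 : ∏ q ∈ s.filter (fun q : Nat.Primes => (q : ℕ) ∣ N), (1 - ((q : ℕ) : ℝ)⁻¹)⁻¹ =
        ∏ q ∈ (s.filter (fun q : Nat.Primes => (q : ℕ) ∣ N)).image (fun q : Nat.Primes => (q : ℕ)),
          (1 - ((q : ℕ) : ℝ)⁻¹)⁻¹ := by
      rw [prod_image]
      intro a _ b _ hab
      exact Subtype.ext hab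
    rw [h3]
    have h4 : ∏ q ∈ (s.filter (fun q : Nat.Primes => (q : ℕ) ∣ N)).image (fun q : Nat.Primes => (q : ℕ)),
        (1 - ((q : ℕ) : ℝ)⁻¹)⁻¹ ≤ ∏ q ∈ N.primeFactors, (1 - ((q : ℕ) : ℝ)⁻¹)⁻¹ := by
      apply prod_le_prod_of_subset_of_one_le
      · intro q hq
        obtain ⟨p, hp, rfl⟩ := mem_image.1 hq
        rw [mem_filter] at hp
        exact Nat.mem_primeFactors.2 ⟨p.2, hp.2, by omega⟩
      · intro q hq
        obtain ⟨p, _, rfl⟩ := mem_image.1 hq
        have hq1 : (1 : ℝ) < (p : ℕ) := by exact_mod_cast p.2.one_lt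
        have h5 := inv_lt_one_of_one_lt₀ hq1
        rw [inv_nonneg]
        linarith
      · intro q hq _
        have hq2 := (Nat.prime_of_mem_primeFactors hq).one_lt
        have hq1 : (1 : ℝ) < q := by exact_mod_cast hq2
        have h5 := inv_lt_one_of_one_lt₀ hq1
        have h6 : 0 < (q : ℝ)⁻¹ := by positivity
        rw [one_le_inv₀ (by linarith)]
        linarith
    refine h4.trans (le_of_eq ?_)
    have h5 : (N.totient : ℝ) = N * ∏ p ∈ N.primeFactors, (1 - (p : ℝ)⁻¹) := by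
      have h8 := Nat.totient_eq_mul_prod_factors N
      have h9 : ((N.totient : ℚ) : ℝ) = ((N * ∏ p ∈ N.primeFactors, (1 - (p : ℚ)⁻¹) : ℚ) : ℝ) := by rw [h8]
      push_cast at h9
      exact h9
    have h6 : (0 : ℝ) < N := by exact_mod_cast hN
    have h7 : ∏ p ∈ N.primeFactors, (1 - (p : ℝ)⁻¹) ≠ 0 := by
      apply prod_ne_zero_iff.2
      intro q hq
      have hq2 := (Nat.prime_of_mem_primeFactors hq).one_lt
      have hq1 : (1 : ℝ) < q := by exact_mod_cast hq2
      have h5 := inv_lt_one_of_one_lt₀ hq1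
      linarith
    rw [h5, prod_inv_distrib]
    field_simp
  exact le_of_tendsto' h h1

/-- a lower bound for the number of representations in windows -/
theorem WinP_low {A m : ℕ} (hm : 4 ≤ m) (he : 2 ∣ m) (h : WinP (1 / 2) A m) {y₁ y₂ : ℕ} (h1 : y₁ < y₂) (h2 : y₂ ≤ m)
    (h3 : (m : ℝ) / Real.log m ^ A ≤ (y₂ : ℝ) - y₁) :
    1 / 4 * (((y₂ : ℝ) - y₁) * (m / (m.totient * Real.log m ^ 2))) ≤ cnt m y₁ y₂ := by
  have hw := h y₁ y₂ h1 h2 h3
  obtain ⟨s1, -⟩ := Pool.Agent.TH894.SM.sing_tot m (by omega) he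
  have h3 := Pool.Agent.W93.GB.C2_half
  have h4 : (0 : ℝ) < (m : ℝ) := by positivity
  have h5 : (0 : ℝ) < (m.totient : ℝ) := by exact_mod_cast Nat.totient_pos.2 (by omega)
  have h6 : 1 / 2 * ((m : ℝ) / m.totient) ≤ sing m :=
    le_trans (mul_le_mul_of_nonneg_right h3 (by positivity)) s1
  have h7 : 0 < Real.log (m : ℝ) := Real.log_pos (by
    have : (4 : ℝ) ≤ m := by exact_mod_cast hm
    linarith)
  have h8 := (abs_le.1 hw).1
  have h0 : (0 : ℝ) ≤ (y₂ : ℝ) - y₁ := by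
    have : (y₁ : ℝ) ≤ y₂ := by exact_mod_cast h1.le
    linarith
  have h10 : 1 / 2 * (sing m * ((y₂ : ℝ) - y₁) / Real.log (m : ℝ) ^ 2) ≤ cnt m y₁ y₂ := by linarith
  refine le_trans ?_ h10
  calc 1 / 4 * (((y₂ : ℝ) - y₁) * ((m : ℝ) / (m.totient * Real.log (m : ℝ) ^ 2)))
      = 1 / 2 * ((1 / 2 * ((m : ℝ) / m.totient)) * ((y₂ : ℝ) - y₁) / Real.log (m : ℝ) ^ 2) := by
        field_simp; ring
    _ ≤ _ := by gcongr

end Pool.Agent.X26.GB
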